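import Pool.Agent.H17.VG.TargetsD
import Pool.Agent.H62.FR.BND

/-!
# MP_70ba79_ag, board `vyc_modules`, row D0: derivations which preserve the constants are bounded
at every place (adapted from `Pool/Agent/H62/FR/BND.lean`)
-/

set_option autoImplicit false
set_option linter.overlappingInstances false

namespace Pool.Agent.H30.VG

open SC IsDedekindDomain Pool.Agent.H76.KN Pool.Agent.H17.VG Pool.Agent.H27.LV
open Pool.Agent.H62.FR (InW)

open Polynomial in
lemma der_aeval {R k L : Type} [Field R] [Field k] [Field L] [Algebra k L] [Algebra R L]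
    (D : Derivation R L L) (hD : PresK k D) (s : L) (f : k[X]) :
    ∃ f1 : k[X], D (aeval s f) = aeval s f1 + aeval s (derivative f) * D s := by
  induction f using Polynomial.induction_on' with
  | add p q hp hq =>
    obtain ⟨p1, hp⟩ := hp
    obtain ⟨q1, hq⟩ := hq
    refine ⟨p1 + q1, ?_⟩
    rw [map_add, map_add, hp, hq, map_add, derivative_add, map_add]
    ring
  | monomial n a =>
    obtain ⟨b, hb⟩ := hD a
    refine ⟨monomial n b, ?_⟩
    rw [aeval_monomial, D.leibniz, hb, D.leibniz_pow, aeval_monomial, derivative_monomial,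
      aeval_monomial]
    simp only [smul_eq_mul, nsmul_eq_mul, map_mul, map_natCast]
    ring

open Polynomial in
theorem bnd_core (R k L : Type) [Field R] [Field k] [CharZero k] [Field L] [Algebra k L]
    [Algebra R L] [Algebra.EssFiniteType k L] (htr : Algebra.trdeg k L = 1) (D : Derivation R L L)
    (hD : PresK k D) (P : DV k L) : ∃ C : ℤ, ∀ a : L, 0 ≤ P.ord a → InW P C (D a) := by
  obtain ⟨s, hs⟩ : ∃ s, s = P.unif := ⟨_, rfl⟩
  have hs1 : P.ord s = 1 := by rw [hs, P.ord_unif]
  have hst : Transcendental k s := by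
    intro h
    rw [Pool.Agent.H36.SC.ord_eq_zero_of_isAlgebraic P h] at hs1
    omega
  have hfd := Pool.Agent.H36.SC.fin_of_transc htr hst
  obtain ⟨F, hF⟩ : ∃ F, F = IntermediateField.adjoin k {s} := ⟨_, rfl⟩
  have hsF : s ∈ F := by
    rw [hF]
    exact IntermediateField.mem_adjoin_simple_self k s
  rw [← hF] at hfd
  let _ : Algebra k[X] L := (aeval (R := k) s).toAlgebra
  let _ : Algebra k[X] F := (aeval (R := k) (⟨s, hsF⟩ : F)).toAlgebra
  have hK : ∀ f : k[X], algebraMap k[X] L f = aeval s f := fun f => rfl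
  have hFm : ∀ f : k[X], algebraMap k[X] F f = aeval (⟨s, hsF⟩ : F) f := fun f => rfl
  have hcoe : ∀ f : k[X], ((aeval (⟨s, hsF⟩ : F) f : F) : L) = aeval s f := by
    intro f
    exact (aeval_algHom_apply (F.val) (⟨s, hsF⟩ : F) f).symm
  have _ : IsScalarTower k k[X] L := IsScalarTower.of_algebraMap_eq (by intro c; simp [hK])
  have _ : IsScalarTower k[X] F L := IsScalarTower.of_algebraMap_eq (by
    intro f
    rw [hK, hFm]
    exact (hcoe f).symm)
  have hinjK : Function.Injective (algebraMap k[X] L) := by
    rw [transcendental_iff_injective] at hst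
    exact hst
  have _ : FaithfulSMul k[X] F := (faithfulSMul_iff_algebraMap_injective _ _).2 (by
    intro a b hab
    apply hinjK
    rw [hK, hK, ← hcoe, ← hcoe]
    rw [hFm, hFm] at hab
    rw [hab])
  have _ : FaithfulSMul k[X] L := (faithfulSMul_iff_algebraMap_injective _ _).2 hinjK
  have _ : IsFractionRing k[X] F := IsFractionRing.of_field k[X] F (by
    intro z
    have hz : (z : L) ∈ IntermediateField.adjoin k {s} := hF ▸ z.2
    rw [IntermediateField.mem_adjoin_simple_iff] at hz
    obtain ⟨r, q, hrq⟩ := hz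
    refine ⟨r, q, ?_⟩
    apply Subtype.ext
    rw [hrq, hFm, hFm, ← hcoe, ← hcoe]
    rfl)
  have _ : CharZero F := charZero_of_injective_algebraMap (algebraMap k F).injective
  have _ : Algebra.IsSeparable F L := inferInstance
  obtain ⟨B, hB⟩ : ∃ B, B = integralClosure k[X] L := ⟨_, rfl⟩
  have _ : IsDedekindDomain B := hB ▸ integralClosure.isDedekindDomain k[X] F L
  have _ : IsFractionRing B L := hB ▸ integralClosure.isFractionRing_of_finite_extension F L
  have hfinB : Module.Finite k[X] B := hB ▸ IsIntegralClosure.finite k[X] F L (integralClosure k[X] L)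
  have hR : ∀ f : k[X], 0 ≤ P.ord (algebraMap k[X] L f) := by
    intro f
    rw [hK, aeval_eq_sum_range]
    change _ ∈ P.vs
    apply sum_mem
    intro i _
    rw [Algebra.smul_def]
    apply mul_mem
    · rw [P.mem_vs, P.ord_base]
    · apply pow_mem
      rw [P.mem_vs]
      omega
  have hBn : ∀ b : B, 0 ≤ P.ord (algebraMap B L b) := by
    intro b
    apply int_nonneg (R := k[X]) P hR
    have h2 : (b : L) ∈ integralClosure k[X] L := hB ▸ b.2
    exact h2
  -- generators
  obtain ⟨T, hT⟩ := hfinB.fg_top
  obtain ⟨C, hC0, hCz, hCT⟩ : ∃ C : ℤ, C ≤ 0 ∧ InW P C (D s) ∧ ∀ b ∈ T, InW P C (D (b : L)) := by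
    have h1 : ∃ C1 : ℤ, ∀ b ∈ T, InW P C1 (D (b : L)) := by
      classical
      have : ∀ U : Finset B, ∃ C1 : ℤ, ∀ b ∈ U, InW P C1 (D (b : L)) := by
        intro U
        induction U using Finset.induction_on with
        | empty => exact ⟨0, by simp⟩
        | insert a U _ ih =>
          obtain ⟨C1, h1⟩ := ih
          refine ⟨min C1 (P.ord (D (a : L))), ?_⟩
          intro b hb
          rcases Finset.mem_insert.1 hb with rfl | hb
          · intro _; exact min_le_right _ _
          · exact (h1 b hb).mono P _ (min_le_left _ _)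
      exact this T
    obtain ⟨C1, h1⟩ := h1
    refine ⟨min 0 (min C1 (P.ord (D s))), min_le_left _ _, ?_, ?_⟩
    · intro _; exact (min_le_right _ _).trans (min_le_right _ _)
    · intro b hb
      exact (h1 b hb).mono P _ ((min_le_right _ _).trans (min_le_left _ _))
  have hDB : ∀ b : B, InW P C (D (b : L)) := by
    intro b
    have hb : b ∈ Submodule.span k[X] (T : Set B) := by rw [hT]; trivial
    induction hb using Submodule.span_induction with
    | mem x hx => exact hCT x hx
    | zero => simpa using InW.zero P C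
    | add x y _ _ hx hy =>
      push_cast
      rw [map_add]
      exact InW.add P C hx hy
    | smul f x _ hx =>
      have h1 : ((f • x : B) : L) = aeval s f * (x : L) := by
        rw [← hK, ← Algebra.smul_def]
        rfl
      obtain ⟨f1, hf1⟩ := der_aeval D hD s f
      rw [h1, D.leibniz, hf1]
      simp only [smul_eq_mul]
      refine InW.add P C (InW.mul P C ?_ hx) (InW.mul P C ?_ (InW.add P C ?_ (InW.mul P C ?_ hCz)))
      · rw [← hK]; exact hR f
      · exact hBn x
      · intro _
        refine hC0.trans ?_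
        rw [← hK]; exact hR f1
      · rw [← hK]; exact hR _
  refine ⟨C, ?_⟩
  intro y hy
  -- y = m / d
  obtain ⟨q, hq⟩ : ∃ q : HeightOneSpectrum B, q.asIdeal = center P hBn :=
    ⟨⟨center P hBn, center_prime P hBn, center_ne_bot P hBn⟩, rfl⟩
  have hord := ord_eq_of_center P hBn q (by
    intro a ha
    rw [hq, mem_center] at ha
    push Not at ha
    exact le_antisymm ha.2 (hBn a))
  have hv : q.valuation L y ≤ 1 := by
    by_cases h0 : q.valuation L y = 0
    · rw [h0]; exact zero_le_one
    · rw [hord, le_neg, neg_zero, WithZero.log_le_iff_le_exp h0, WithZero.exp_zero] at hy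
      exact hy
  obtain ⟨m, d, hd⟩ := q.exists_primeCompl_mul_eq_of_integer y hv
  have hdP : (d : B) ∉ center P hBn := fun h => d.2 (hq.ge h)
  rw [mem_center] at hdP
  push Not at hdP
  have hd0 : algebraMap B L (d : B) ≠ 0 := by
    simpa using hdP.1
  have hdo : P.ord (algebraMap B L (d : B)) = 0 := le_antisymm hdP.2 (hBn _)
  have h1 : D (algebraMap B L m) = y * D (algebraMap B L (d : B)) + algebraMap B L (d : B) * D y := by
    rw [← hd, D.leibniz]
    simp only [smul_eq_mul]
  have h2 : D y = (algebraMap B L (d : B))⁻¹ *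
      (D (algebraMap B L m) - y * D (algebraMap B L (d : B))) := by
    rw [h1]
    field_simp
    ring
  have h3 : InW P C (D y) := by
    rw [h2]
    refine InW.mul P C (by rw [P.ord_inv, hdo]; simp) (InW.sub P C (hDB m) ?_)
    exact InW.mul P C hy (hDB d)
  exact h3



theorem d0 : T_D0 := by
  intro R k K _ _ _ _ _ _ _ htr θ hθ v
  obtain ⟨C, hC⟩ := bnd_core R k K htr θ hθ v
  refine ⟨C, fun z hz => ?_⟩
  by_cases h0 : θ z = 0
  · exact Or.inl h0
  · exact Or.inr (hC z hz h0)

end Pool.Agent.H30.VG
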