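import Pool.Agent.H30.VG.Sh

/-! Module ABM: the two basic mass bounds. -/

open MeasureTheory Set Filter Topology
open scoped ENNReal NNReal ContDiff ComplexConjugate

namespace Pool.Agent.H30.VG.ABM

open Pool.Agent.H95.VG Pool.Agent.H30.VG.CUT Pool.Agent.H30.VG.Sh

variable {n : ℕ}

lemma le2 : (2 : WithTop ℕ∞) ≤ ((⊤ : ℕ∞) : WithTop ℕ∞) := WithTop.coe_le_coe.2 (le_top : (2 : ℕ∞) ≤ ⊤)

lemma nsqc : Continuous (nsq (n := n)) := by unfold nsq; fun_prop

/-- the shell between the radii `1/2` and `1/√2` -/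
def Kc (n : ℕ) : Set (V n) := {z | 1 / 4 ≤ nsq z ∧ nsq z ≤ 1 / 2}

lemma Kc_closed : IsClosed (Kc n) :=
  (isClosed_le continuous_const nsqc).inter (isClosed_le nsqc continuous_const)

lemma Kc_sub : Kc n ⊆ Dp n := fun z hz => ⟨by have := hz.1; linarith, by have := hz.2; linarith⟩

lemma Kc_compact (hNSQ : T_NSQ) : IsCompact (Kc n) := by
  refine Metric.isCompact_of_isClosed_isBounded Kc_closed ?_
  refine (Metric.isBounded_closedBall (x := (0 : V n)) (r := 1)).subset fun z hz => ?_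
  rw [mem_closedBall_zero_iff]
  have h1 := ((hNSQ n).2.2.2.2.2 z).1
  have h2 := hz.2
  nlinarith [norm_nonneg z]

lemma lu_neg (z : V n) (hz : z ∈ Dp n) : lu z ≤ 0 := by
  unfold lu
  have := Real.log_nonpos hz.1.le hz.2.le
  linarith

lemma chi_one_near (hCUT : T_CUT) (z : V n) (hz : nsq z < 1 / 4) :
    (chi (n := n)) =ᶠ[𝓝 z] fun _ => 1 := by
  filter_upwards [nsqc.continuousAt.eventually_lt continuousAt_const hz] with x hx
  exact ((hCUT n).2.2.1 x).2.2.1 (le_of_lt hx)

lemma chi_zero_near (hCUT : T_CUT) (z : V n) (hz : 1 / 2 < nsq z) :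
    (chi (n := n)) =ᶠ[𝓝 z] fun _ => 0 := by
  filter_upwards [continuousAt_const.eventually_lt nsqc.continuousAt hz] with x hx
  exact ((hCUT n).2.2.1 x).2.2.2 (le_of_lt hx)

lemma lu_cat (hNSQ : T_NSQ) (z : V n) (hz : 0 < nsq z) : ContDiffAt ℝ 2 (lu (n := n)) z := by
  have h1 := (hNSQ n).2.1
  have h2 : {z : V n | 0 < nsq z} ∈ 𝓝 z := (isOpen_lt continuous_const nsqc).mem_nhds hz
  exact (h1.contDiffAt h2).of_le le2

variable {X : Type} [TopologicalSpace X] {ι : Type} [Fintype ι]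

lemma Dm_sum_nonneg (A : Atl n X ι) (f : V n → X) (R : ℝ) (z : V n) :
    0 ≤ ∑ a, (Cb A f a R).indicator (Dm (FF A f a)) z :=
  Finset.sum_nonneg fun a _ => Set.indicator_nonneg
    (fun y _ => Finset.sum_nonneg fun _ _ => by positivity) z

/-- total mass of the shell operators -/
lemma shell_mass (hNSQ : T_NSQ) (hCUT : T_CUT) (hPWB : T_PWB) (hOAO : T_OAO) [T2Space X]
    (A : Atl n X ι) (w : ι → V n → ℝ) (f : V n → X) (I : Set (V n)) (hG : Gau A w)
    (hS : Sing A f I) :
    ∃ B : ℝ, 0 ≤ B ∧ ∫⁻ z in Dp n \ I, ENNReal.ofReal |LLs A w f chi z| ≤ ENNReal.ofReal B := by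
  have hchi2 : ContDiffOn ℝ 2 (chi (n := n)) (Dp n) :=
    ((hCUT n).1.of_le le2).contDiffOn
  obtain ⟨C0, hC0⟩ := hPWB n X ι A w f I hG hS chi (Kc n) hchi2 Kc_sub (Kc_compact hNSQ)
  obtain ⟨M, hM, hmass⟩ := mass hOAO A f I hS (Kc n) Kc_sub (Kc_compact hNSQ)
  refine ⟨max C0 0 * M, by positivity, ?_⟩
  refine hmass (LLs A w f chi) (max C0 0) (le_max_right _ _) ?_ ?_
  · intro z hz
    refine (hC0 z hz).2.trans ?_
    exact mul_le_mul_of_nonneg_right (le_max_left _ _) (Dm_sum_nonneg A f _ z)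
  · intro z hz hzK
    by_cases h1 : nsq z < 1 / 4
    · rw [LLs_congr A w f (chi_one_near hCUT z h1), LLs_const]
    · have h2 : 1 / 2 < nsq z := by
        by_contra h3
        exact hzK ⟨not_lt.mp h1, not_lt.mp h3⟩
      rw [LLs_congr A w f (chi_zero_near hCUT z h2), LLs_const]

theorem abm (hPRD : T_PRD) (hNSQ : T_NSQ) (hCUT : T_CUT) (hPWB : T_PWB) (hOAO : T_OAO)
    (hADJ : T_ADJ) : T_ABM := by
  intro n X _ _ ι _ A w f I hG hS
  obtain ⟨B, hB, hBm⟩ := shell_mass hNSQ hCUT hPWB hOAO A w f I hG hS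
  have hDpm : MeasurableSet (Dp n \ I) := hS.opn.measurableSet
  refine ⟨27 * B, fun t ht => ?_⟩
  have ht0 : 0 < t := by linarith
  obtain ⟨hF2, hF', hF''⟩ := cub_facts t t 3 ht0
  set F : ℝ → ℝ := fun s : ℝ => t * (max (s / t + 3) 0) ^ 3 with hF
  have hFz : ∀ s ≤ -(3 * t), F s = 0 := by
    intro s hs
    have : s / t + 3 ≤ 0 := by
      have : s / t ≤ -3 := by rw [div_le_iff₀ ht0]; linarith
      linarith
    simp only [hF, max_eq_right this]
    norm_num
  obtain ⟨hg2, -, -⟩ := (hCUT n).2.2.2.2 F hF2 ⟨_, hFz⟩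
  set g : V n → ℝ := fun z => if nsq z = 0 then 0 else F (lu z) with hg
  obtain ⟨hrho, hrho2, hcs, hts⟩ := (hCUT n).2.2.2.1 (3 * t) (by linarith)
  have hchi : ContDiff ℝ ∞ (chi (n := n)) := (hCUT n).1
  have hφ : ContDiff ℝ 2 (fun z : V n => chi z * rho (3 * t) z) :=
    (hchi.mul hrho).of_le le2
  obtain ⟨i1, i2, e1⟩ := hADJ n X ι A w f I hG hS _ g hφ hcs hts hg2.contDiffOn
  -- positivity and local forms
  have hlucont : ∀ z : V n, 0 < nsq z → ContinuousAt (lu (n := n)) z := fun z hz =>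
    (lu_cat hNSQ z hz).continuousAt
  have hgLL : ∀ z ∈ Dp n \ I, LL A w f g z
      = deriv F (lu z) * LL A w f lu z + deriv (deriv F) (lu z) * GE A w f lu z := by
    intro z hz
    have h1 : g =ᶠ[𝓝 z] fun x => F (lu x) := by
      filter_upwards [continuousAt_const.eventually_lt nsqc.continuousAt hz.1.1] with x hx
      simp only [hg]
      rw [if_neg hx.ne']
    rw [LL_congr A w f h1]
    exact LL_comp hPRD A w f F lu z hF2.contDiffAt (lu_cat hNSQ z hz.1.1)
  have hLLlu : ∀ z ∈ Dp n \ I, 0 ≤ LL A w f lu z := fun z hz =>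
    LL_nonneg A w hG f lu z fun v => ((hNSQ n).2.2.2.2.1 z v hz.1.1).1
  have hGElu : ∀ z : V n, 0 ≤ GE A w f lu z := fun z => GE_nonneg A w hG f lu z
  have hd1 : ∀ s, 0 ≤ deriv F s := by
    intro s; rw [hF']; positivity
  have hd2 : ∀ s, 0 ≤ deriv (deriv F) s := by
    intro s; rw [hF'']
    have : 0 ≤ max (s / t + 3) 0 := le_max_right _ _
    positivity
  have hgnn : ∀ z ∈ Dp n \ I, 0 ≤ LL A w f g z := by
    intro z hz
    rw [hgLL z hz]
    have := mul_nonneg (hd1 (lu z)) (hLLlu z hz)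
    have := mul_nonneg (hd2 (lu z)) (hGElu z)
    linarith
  have hchinn : ∀ z : V n, 0 ≤ chi z := fun z => ((hCUT n).2.2.1 z).1
  -- the left side
  have hl : ∀ z ∈ Dp n \ I, chi z * rho (3 * t) z * LL A w f g z = chi z * LL A w f g z := by
    intro z hz
    by_cases h1 : -(3 * t) ≤ lu z
    · rw [(hrho2 z).2.2.1 hz.1.1 h1, mul_one]
    · have h2 : g =ᶠ[𝓝 z] fun _ => 0 := by
        filter_upwards [(hlucont z hz.1.1).eventually_lt continuousAt_const (not_le.mp h1)] with x hx
        simp only [hg]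
        split_ifs
        · rfl
        · exact hFz _ (le_of_lt hx)
      rw [LL_congr A w f h2, LL_const, mul_zero, mul_zero]
  -- the right side
  have hr : ∀ z ∈ Dp n \ I, g z * LLs A w f (fun z => chi z * rho (3 * t) z) z
      = g z * LLs A w f chi z := by
    intro z hz
    by_cases h1 : -(3 * t) < lu z
    · have h2 : (fun z : V n => chi z * rho (3 * t) z) =ᶠ[𝓝 z] chi := by
        filter_upwards [continuousAt_const.eventually_lt (hlucont z hz.1.1) h1,
          continuousAt_const.eventually_lt nsqc.continuousAt hz.1.1] with x hx hx2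
        rw [(hrho2 x).2.2.1 hx2 (le_of_lt hx), mul_one]
      rw [LLs_congr A w f h2]
    · have h2 : g z = 0 := by
        simp only [hg]
        split_ifs
        · rfl
        · exact hFz _ (not_lt.mp h1)
      rw [h2, zero_mul, zero_mul]
  have i1' : IntegrableOn (fun z => chi z * LL A w f g z) (Dp n \ I) :=
    (integrableOn_congr_fun hl hDpm).mp i1
  have i2' : IntegrableOn (fun z => g z * LLs A w f chi z) (Dp n \ I) :=
    (integrableOn_congr_fun hr hDpm).mp i2
  rw [setIntegral_congr_fun hDpm hl, setIntegral_congr_fun hDpm hr] at e1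
  -- bound of g
  have hgb : ∀ z ∈ Dp n \ I, |g z| ≤ 27 * t := by
    intro z hz
    simp only [hg]
    rw [if_neg hz.1.1.ne']
    have h1 : lu z ≤ 0 := lu_neg z hz.1
    have h2 : max (lu z / t + 3) 0 ≤ 3 := by
      refine max_le ?_ (by norm_num)
      have : lu z / t ≤ 0 := div_nonpos_of_nonpos_of_nonneg h1 ht0.le
      linarith
    have h3 : 0 ≤ max (lu z / t + 3) 0 := le_max_right _ _
    have h4 : (max (lu z / t + 3) 0) ^ 3 ≤ 3 ^ 3 := pow_le_pow_left₀ h3 h2 3
    simp only [hF]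
    rw [abs_of_nonneg (by positivity)]
    nlinarith
  have hRHS : ∫ z in Dp n \ I, g z * LLs A w f chi z ≤ 27 * t * B := by
    have h1 : ‖∫ z in Dp n \ I, g z * LLs A w f chi z‖
        ≤ (∫⁻ z in Dp n \ I, ENNReal.ofReal ‖g z * LLs A w f chi z‖).toReal :=
      norm_integral_le_lintegral_norm _
    have h2 : ∫⁻ z in Dp n \ I, ENNReal.ofReal ‖g z * LLs A w f chi z‖
        ≤ ENNReal.ofReal (27 * t * B) := by
      calc ∫⁻ z in Dp n \ I, ENNReal.ofReal ‖g z * LLs A w f chi z‖
          ≤ ∫⁻ z in Dp n \ I, ENNReal.ofReal (27 * t) * ENNReal.ofReal |LLs A w f chi z| := by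
            refine setLIntegral_mono' hDpm fun z hz => ?_
            rw [← ENNReal.ofReal_mul (by positivity), norm_mul, Real.norm_eq_abs, Real.norm_eq_abs]
            exact ENNReal.ofReal_le_ofReal
              (mul_le_mul_of_nonneg_right (hgb z hz) (abs_nonneg _))
        _ = ENNReal.ofReal (27 * t) * ∫⁻ z in Dp n \ I, ENNReal.ofReal |LLs A w f chi z| :=
            lintegral_const_mul' _ _ ENNReal.ofReal_ne_top
        _ ≤ ENNReal.ofReal (27 * t) * ENNReal.ofReal B := by gcongr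
        _ = ENNReal.ofReal (27 * t * B) := by rw [← ENNReal.ofReal_mul (by positivity)]
    have h3 : (∫⁻ z in Dp n \ I, ENNReal.ofReal ‖g z * LLs A w f chi z‖).toReal
        ≤ 27 * t * B := by
      have := ENNReal.toReal_mono ENNReal.ofReal_ne_top h2
      rwa [ENNReal.toReal_ofReal (by positivity)] at this
    exact (le_abs_self _).trans (h1.trans h3)
  have hmain : ∫⁻ z in Dp n \ I, ENNReal.ofReal (chi z * LL A w f g z)
      ≤ ENNReal.ofReal (27 * t * B) := by
    rw [← ofReal_integral_eq_lintegral_ofReal i1', e1]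
    · exact ENNReal.ofReal_le_ofReal hRHS
    · filter_upwards [ae_restrict_mem hDpm] with z hz
      exact mul_nonneg (hchinn z) (hgnn z hz)
  -- conclusion
  have hSm : MeasurableSet ({z : V n | nsq z ≤ 1 / 4 ∧ -2 * t ≤ lu z}) := by
    have hlum : Measurable (lu (n := n)) := by
      unfold lu
      exact (Real.measurable_log.comp nsqc.measurable).div_const _
    exact (measurableSet_le nsqc.measurable measurable_const).inter
      (measurableSet_le measurable_const hlum)
  have hmono : ∀ u : V n → ℝ, ∀ c : ℝ, 0 ≤ c →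
      (∀ z ∈ Dp n \ I, nsq z ≤ 1 / 4 → -2 * t ≤ lu z → u z ≤ c * LL A w f g z) →
      ∫⁻ z in (Dp n \ I) ∩ {z | nsq z ≤ 1 / 4 ∧ -2 * t ≤ lu z}, ENNReal.ofReal (u z)
        ≤ ENNReal.ofReal (c * (27 * t * B)) := by
    intro u c hc hu
    calc ∫⁻ z in (Dp n \ I) ∩ {z | nsq z ≤ 1 / 4 ∧ -2 * t ≤ lu z}, ENNReal.ofReal (u z)
        ≤ ∫⁻ z in (Dp n \ I) ∩ {z | nsq z ≤ 1 / 4 ∧ -2 * t ≤ lu z},
            ENNReal.ofReal c * ENNReal.ofReal (chi z * LL A w f g z) := by
          refine setLIntegral_mono' (hDpm.inter hSm) fun z hz => ?_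
          rw [← ENNReal.ofReal_mul hc, ((hCUT n).2.2.1 z).2.2.1 hz.2.1, one_mul]
          exact ENNReal.ofReal_le_ofReal (hu z hz.1 hz.2.1 hz.2.2)
      _ = ENNReal.ofReal c * ∫⁻ z in (Dp n \ I) ∩ {z | nsq z ≤ 1 / 4 ∧ -2 * t ≤ lu z},
            ENNReal.ofReal (chi z * LL A w f g z) :=
          lintegral_const_mul' _ _ ENNReal.ofReal_ne_top
      _ ≤ ENNReal.ofReal c * ∫⁻ z in Dp n \ I, ENNReal.ofReal (chi z * LL A w f g z) := by
          gcongr
          exact Set.inter_subset_left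
      _ ≤ ENNReal.ofReal c * ENNReal.ofReal (27 * t * B) := by gcongr
      _ = ENNReal.ofReal (c * (27 * t * B)) := by rw [← ENNReal.ofReal_mul hc]
  have hbig : ∀ z : V n, -2 * t ≤ lu z → 1 ≤ max (lu z / t + 3) 0 := by
    intro z hz
    have : -2 ≤ lu z / t := by rw [le_div_iff₀ ht0]; linarith
    exact le_trans (by linarith) (le_max_left _ _)
  constructor
  · refine (hmono (GE A w f lu) t ht0.le ?_).trans ?_
    · intro z hz hz4 hz2
      rw [hgLL z hz]
      have h1 := hbig z hz2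
      have h2 : 1 / t ≤ deriv (deriv F) (lu z) := by
        rw [hF'']
        have e : t * (6 * max (lu z / t + 3) 0 / t ^ 2) = 6 * max (lu z / t + 3) 0 / t := by
          field_simp
        simp only [e]
        gcongr
        linarith
      have h3 : 1 / t * GE A w f lu z ≤ deriv (deriv F) (lu z) * GE A w f lu z :=
        mul_le_mul_of_nonneg_right h2 (hGElu z)
      have h4 := mul_nonneg (hd1 (lu z)) (hLLlu z hz)
      have h5 : t * (1 / t * GE A w f lu z) = GE A w f lu z := by field_simp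
      calc GE A w f lu z = t * (1 / t * GE A w f lu z) := h5.symm
        _ ≤ t * (deriv F (lu z) * LL A w f lu z + deriv (deriv F) (lu z) * GE A w f lu z) := by
          gcongr
          linarith
    · refine ENNReal.ofReal_le_ofReal (le_of_eq ?_)
      ring
  · refine (hmono (LL A w f lu) 1 zero_le_one ?_).trans ?_
    · intro z hz hz4 hz2
      rw [hgLL z hz, one_mul]
      have h1 := hbig z hz2
      have h2 : 1 ≤ deriv F (lu z) := by
        rw [hF']
        have e : t * (3 * max (lu z / t + 3) 0 ^ 2 / t) = 3 * max (lu z / t + 3) 0 ^ 2 := by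
          field_simp
        simp only [e]
        nlinarith
      have h3 : 1 * LL A w f lu z ≤ deriv F (lu z) * LL A w f lu z :=
        mul_le_mul_of_nonneg_right h2 (hLLlu z hz)
      have h4 := mul_nonneg (hd2 (lu z)) (hGElu z)
      linarith
    · refine ENNReal.ofReal_le_ofReal (le_of_eq ?_)
      ring

end Pool.Agent.H30.VG.ABM
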