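import Pool.Agent.H95.VG.Targets1
import Pool.Agent.H95.VG.Targets2

/-! Module C0: finite volume in the case of flux zero. -/

open MeasureTheory Set Filter Topology
open scoped ENNReal NNReal ContDiff ComplexConjugate

namespace Pool.Agent.H30.VG.C0

open Pool.Agent.H95.VG

theorem c0 (hOAO : T_OAO) (hCMP : T_CMP) (hSHE : T_SHE) (hGRI : T_GRI) : T_C0 := by
  intro n X _ _ _ ι _ A w f I hG hS hflux
  obtain ⟨C, hCpos, hC⟩ := hCMP n X ι A w hG
  have hC := hC f I hS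
  have hcont : Continuous (nsq (n := n)) := by unfold nsq; fun_prop
  let S : ι → Set (V n) := fun a =>
    {z | z ∈ {z | z ∈ Oa A f I a ∧ nsq z < 1 / 4} ∧ FF A f a z ∈ Metric.closedBall 0 1}
  have hcover : (Dp n \ I) ∩ {z | nsq z < 1 / 4} ⊆ ⋃ a, S a := by
    rintro z ⟨hz, hz4⟩
    obtain ⟨a, ha1, ha2⟩ := A.cover (f z)
    refine mem_iUnion.mpr ⟨a, ⟨⟨hz, ha1, ?_⟩, hz4⟩, ?_⟩
    · exact Metric.ball_subset_ball (by norm_num) ha2
    · exact Metric.ball_subset_closedBall ha2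
  have hfin : ∀ a, ∫⁻ z in S a, ENNReal.ofReal (PB A f w z) < ⊤ := by
    intro a
    obtain ⟨hopen, hdiff, hclosed, -, hsub, -⟩ := hOAO n X ι A f I hS a
    obtain ⟨K, hKc, hK⟩ := hclosed 1 (by norm_num)
    obtain ⟨C1, ρ₀, hρ₀, hsh⟩ := hSHE n X ι A w f I hG hS hflux a
    have hO : IsOpen {z | z ∈ Oa A f I a ∧ nsq z < 1 / 4} :=
      hopen.inter (isOpen_lt hcont continuous_const)
    have hgri := hGRI n {z | z ∈ Oa A f I a ∧ nsq z < 1 / 4} (FF A f a) C1 ρ₀ hO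
      (hdiff.mono fun z hz => hz.1) hρ₀ hsh
    have hSeq : S a = {z | z ∈ Oa A f I a ∧ nsq z < 1 / 4} ∩ K := by
      ext z
      constructor
      · rintro ⟨h1, h2⟩
        refine ⟨h1, ?_⟩
        have h3 : z ∈ (Dp n \ I) ∩ Cb A f a 1 := ⟨h1.1.1, h1.1.2.1, h2⟩
        rw [hK] at h3
        exact h3.2
      · rintro ⟨h1, h2⟩
        refine ⟨h1, ?_⟩
        have h3 : z ∈ (Dp n \ I) ∩ K := ⟨h1.1.1, h2⟩
        rw [← hK] at h3
        exact h3.2.2
    have hSm : MeasurableSet (S a) := by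
      rw [hSeq]; exact hO.measurableSet.inter hKc.measurableSet
    calc ∫⁻ z in S a, ENNReal.ofReal (PB A f w z)
        ≤ ∫⁻ z in S a, ENNReal.ofReal C * ENNReal.ofReal (‖(jac (FF A f a) z).det‖ ^ 2) := by
          refine setLIntegral_mono' hSm ?_
          intro z hz
          rw [← ENNReal.ofReal_mul hCpos.le]
          exact ENNReal.ofReal_le_ofReal (hC z hz.1.1.1 a (hsub hz.1.1).2).2.1
      _ = ENNReal.ofReal C * ∫⁻ z in S a, ENNReal.ofReal (‖(jac (FF A f a) z).det‖ ^ 2) :=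
          lintegral_const_mul' _ _ ENNReal.ofReal_ne_top
      _ < ⊤ := by
          refine ENNReal.mul_lt_top ENNReal.ofReal_lt_top ?_
          exact lt_of_le_of_lt hgri ENNReal.ofReal_lt_top
  calc ∫⁻ z in (Dp n \ I) ∩ {z | nsq z < 1 / 4}, ENNReal.ofReal (PB A f w z)
      ≤ ∫⁻ z in ⋃ a, S a, ENNReal.ofReal (PB A f w z) := lintegral_mono_set hcover
    _ ≤ ∑' a, ∫⁻ z in S a, ENNReal.ofReal (PB A f w z) := lintegral_iUnion_le _ _
    _ = ∑ a, ∫⁻ z in S a, ENNReal.ofReal (PB A f w z) := tsum_fintype _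
    _ < ⊤ := ENNReal.sum_lt_top.mpr fun a _ => hfin a

end Pool.Agent.H30.VG.C0
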