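import Pool.Agent.H95.VG.Targets1

/-! Module CUT: cutoff functions. -/

open MeasureTheory Set Filter Topology
open scoped ENNReal NNReal ContDiff ComplexConjugate

namespace Pool.Agent.H30.VG.CUT

open Pool.Agent.H95.VG

variable {n : ℕ}

lemma nsq_nonneg (z : V n) : 0 ≤ nsq z := Finset.sum_nonneg fun i _ => by positivity

lemma lu_lt (z : V n) (hz : nsq z ≠ 0) (B : ℝ) (h : nsq z < Real.exp (2 * B)) : lu z < B := by
  have hpos : 0 < nsq z := lt_of_le_of_ne (nsq_nonneg z) (Ne.symm hz)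
  have := (Real.log_lt_iff_lt_exp hpos).mpr h
  unfold lu
  linarith

/-- the composite with a function vanishing near `-∞` -/
lemma cdG (hs : ContDiff ℝ ∞ (nsq (n := n)))
    (hl : ContDiffOn ℝ ∞ (lu (n := n)) {z | 0 < nsq z}) (k : WithTop ℕ∞) (hk : k ≤ ((⊤ : ℕ∞) : WithTop ℕ∞))
    (F : ℝ → ℝ) (hF : ContDiff ℝ k F) (B : ℝ) (hB : ∀ s ≤ B, F s = 0) (G : V n → ℝ)
    (hG0 : ∀ z, nsq z = 0 → G z = 0) (hG1 : ∀ z, nsq z ≠ 0 → G z = F (lu z)) :
    ContDiff ℝ k G := by
  rw [contDiff_iff_contDiffAt]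
  intro z
  have hcont : Continuous (nsq (n := n)) := hs.continuous
  by_cases hz : nsq z = 0
  · have hev : ∀ᶠ z' in 𝓝 z, nsq z' < Real.exp (2 * B) := by
      have : Tendsto (nsq (n := n)) (𝓝 z) (𝓝 (nsq z)) := hcont.tendsto z
      rw [hz] at this
      exact this.eventually_lt_const (Real.exp_pos _)
    have hev2 : G =ᶠ[𝓝 z] fun _ => 0 := by
      filter_upwards [hev] with z' hz'
      by_cases h0 : nsq z' = 0
      · exact hG0 z' h0
      · rw [hG1 z' h0]
        exact hB _ (lu_lt z' h0 B hz').le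
    exact contDiffAt_const.congr_of_eventuallyEq hev2
  · have hpos : 0 < nsq z := lt_of_le_of_ne (nsq_nonneg z) (Ne.symm hz)
    have hopen : IsOpen {z : V n | 0 < nsq z} := isOpen_lt continuous_const hcont
    have hmem : {z : V n | 0 < nsq z} ∈ 𝓝 z := hopen.mem_nhds hpos
    have h1 : ContDiffAt ℝ k (lu (n := n)) z := (hl.contDiffAt hmem).of_le hk
    have h2 : ContDiffAt ℝ k (fun z => F (lu z)) z := hF.contDiffAt.comp z h1
    refine h2.congr_of_eventuallyEq ?_
    filter_upwards [hmem] with z' hz'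
    exact hG1 z' (ne_of_gt hz')

lemma suppG (hs : ContDiff ℝ ∞ (nsq (n := n))) (hchi0 : ∀ z : V n, 1 / 2 ≤ nsq z → chi z = 0)
    (F : ℝ → ℝ) (B : ℝ) (hB : ∀ s ≤ B, F s = 0) (G : V n → ℝ)
    (hG0 : ∀ z, nsq z = 0 → G z = 0) (hG1 : ∀ z, nsq z ≠ 0 → G z = F (lu z)) :
    tsupport (fun z : V n => chi z * G z) ⊆ Dp n := by
  have hcont : Continuous (nsq (n := n)) := hs.continuous
  have hcl : IsClosed {z : V n | Real.exp (2 * B) ≤ nsq z ∧ nsq z ≤ 1 / 2} :=
    (isClosed_le continuous_const hcont).inter (isClosed_le hcont continuous_const)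
  have hsub : tsupport (fun z : V n => chi z * G z)
      ⊆ {z : V n | Real.exp (2 * B) ≤ nsq z ∧ nsq z ≤ 1 / 2} := by
    refine closure_minimal ?_ hcl
    intro z hz
    have hz' : chi z * G z ≠ 0 := hz
    have hc : chi z ≠ 0 := left_ne_zero_of_mul hz'
    have hg : G z ≠ 0 := right_ne_zero_of_mul hz'
    refine ⟨?_, ?_⟩
    · by_contra hcon
      push Not at hcon
      by_cases h0 : nsq z = 0
      · exact hg (hG0 z h0)
      · apply hg
        rw [hG1 z h0]
        exact hB _ (lu_lt z h0 B hcon).le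
    · by_contra hcon
      push Not at hcon
      exact hc (hchi0 z hcon.le)
  refine hsub.trans ?_
  rintro z ⟨h1, h2⟩
  exact ⟨lt_of_lt_of_le (Real.exp_pos _) h1, by linarith⟩

theorem cut (h : T_NSQ) : T_CUT := by
  intro n
  obtain ⟨hs, hl, -, -, -, hn⟩ := h n
  have hchi1 : ∀ z : V n, nsq z ≤ 1 / 4 → chi z = 1 := by
    intro z hz
    exact Real.smoothTransition.one_of_one_le (by linarith)
  have hchi0 : ∀ z : V n, 1 / 2 ≤ nsq z → chi z = 0 := by
    intro z hz
    exact Real.smoothTransition.zero_of_nonpos (by linarith)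
  have hchis : ContDiff ℝ ∞ (chi (n := n)) := by
    have h1 : ContDiff ℝ ∞ (fun z : V n => 2 - 4 * nsq z) := contDiff_const.sub (contDiff_const.mul hs)
    exact Real.smoothTransition.contDiff.comp h1
  have hchic : HasCompactSupport (chi (n := n)) := by
    refine HasCompactSupport.intro (isCompact_closedBall (0 : V n) 1) ?_
    intro z hz
    apply hchi0
    have h1 : 1 < ‖z‖ := by simpa using hz
    have h2 := (hn z).1
    nlinarith
  refine ⟨hchis, hchic, fun z => ⟨Real.smoothTransition.nonneg _, Real.smoothTransition.le_one _,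
    hchi1 z, hchi0 z⟩, ?_, ?_⟩
  · intro t ht
    have htpos : 0 < t := by linarith
    have hB : ∀ s ≤ -2 * t, Real.smoothTransition (s / t + 2) = 0 := by
      intro s hs
      apply Real.smoothTransition.zero_of_nonpos
      have : s / t ≤ -2 := by rw [div_le_iff₀ htpos]; linarith
      linarith
    have hG0 : ∀ z : V n, nsq z = 0 → rho t z = 0 := by
      intro z hz
      simp [rho, hz]
    have hG1 : ∀ z : V n, nsq z ≠ 0 → rho t z = Real.smoothTransition (lu z / t + 2) := by
      intro z hz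
      simp [rho, hz]
    have hF : ContDiff ℝ ∞ (fun s : ℝ => Real.smoothTransition (s / t + 2)) := by
      have h1 : ContDiff ℝ ∞ (fun s : ℝ => s / t + 2) := (contDiff_id.div_const t).add contDiff_const
      exact Real.smoothTransition.contDiff.comp h1
    refine ⟨cdG hs hl _ le_rfl _ hF (-2 * t) hB _ hG0 hG1, ?_, hchic.mul_right, ?_⟩
    · intro z
      by_cases hz : nsq z = 0
      · rw [hG0 z hz]
        refine ⟨le_rfl, zero_le_one, ?_, fun _ => rfl⟩
        intro h0; rw [hz] at h0; exact absurd h0 (lt_irrefl _)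
      · rw [hG1 z hz]
        refine ⟨Real.smoothTransition.nonneg _, Real.smoothTransition.le_one _, ?_, ?_⟩
        · intro _ h1
          apply Real.smoothTransition.one_of_one_le
          have : -1 ≤ lu z / t := by rw [le_div_iff₀ htpos]; linarith
          linarith
        · rintro (h1 | h1)
          · exact hB _ h1
          · exact absurd h1 hz
    · exact suppG hs hchi0 (fun s => Real.smoothTransition (s / t + 2)) (-2 * t) hB _ hG0 hG1
  · rintro F hF ⟨B, hB⟩
    have hG0 : ∀ z : V n, nsq z = 0 → (if nsq z = 0 then 0 else F (lu z)) = 0 := by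
      intro z hz
      simp [hz]
    have hG1 : ∀ z : V n, nsq z ≠ 0 → (if nsq z = 0 then 0 else F (lu z)) = F (lu z) := by
      intro z hz
      simp [hz]
    have h2le : (2 : WithTop ℕ∞) ≤ ((⊤ : ℕ∞) : WithTop ℕ∞) :=
      show ((2 : ℕ∞) : WithTop ℕ∞) ≤ ((⊤ : ℕ∞) : WithTop ℕ∞) from WithTop.coe_le_coe.mpr le_top
    exact ⟨cdG hs hl 2 h2le F hF B hB _ hG0 hG1, hchic.mul_right, suppG hs hchi0 F B hB _ hG0 hG1⟩

end Pool.Agent.H30.VG.CUT
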