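import Pool.Agent.H30.VG.ABM

/-! Module FLX: the flux is nonnegative and is the total mass of the inner cutoff. -/

open MeasureTheory Set Filter Topology
open scoped ENNReal NNReal ContDiff ComplexConjugate

namespace Pool.Agent.H30.VG.FLX

open Pool.Agent.H95.VG Pool.Agent.H30.VG.CUT Pool.Agent.H30.VG.Sh Pool.Agent.H30.VG.ABM

variable {n : ℕ}

/-! ### linearity -/

lemma fd_diff {g : V n → ℝ} {z : V n} (hg : ContDiffAt ℝ 2 g z) (w : V n) :
    DifferentiableAt ℝ (fun x => fderiv ℝ g x w) z := by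
  have h1 : ContDiffAt ℝ 1 (fderiv ℝ g) z := hg.fderiv_right (m := 1) (by norm_num)
  exact (h1.differentiableAt (by norm_num)).clm_apply (differentiableAt_const _)

lemma ev_diff {g : V n → ℝ} {z : V n} (hg : ContDiffAt ℝ 2 g z) :
    ∀ᶠ x in 𝓝 z, DifferentiableAt ℝ g x :=
  (hg.eventually (by norm_num)).mono fun x hx => hx.differentiableAt (by norm_num)

lemma lev_add {g h : V n → ℝ} {z : V n} (hg : ContDiffAt ℝ 2 g z) (hh : ContDiffAt ℝ 2 h z)
    (v : V n) : lev (fun x => g x + h x) z v = lev g z v + lev h z v := by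
  have key : ∀ w u : V n, fderiv ℝ (fun x => fderiv ℝ (fun y => g y + h y) x w) z u
      = fderiv ℝ (fun x => fderiv ℝ g x w) z u + fderiv ℝ (fun x => fderiv ℝ h x w) z u := by
    intro w u
    have h1 : (fun x => fderiv ℝ (fun y => g y + h y) x w)
        =ᶠ[𝓝 z] fun x => fderiv ℝ g x w + fderiv ℝ h x w := by
      filter_upwards [ev_diff hg, ev_diff hh] with x h1 h2
      rw [fderiv_fun_add h1 h2]
      rfl
    rw [h1.fderiv_eq, fderiv_fun_add (fd_diff hg w) (fd_diff hh w)]
    rfl
  unfold lev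
  rw [key, key]
  simp only [smul_eq_mul]
  ring

lemma lev_cmul (hPRD : T_PRD) (c : ℝ) {h : V n → ℝ} {z : V n} (hh : ContDiffAt ℝ 2 h z)
    (v : V n) : lev (fun x => c * h x) z v = c * lev h z v := by
  have h1 := (hPRD n z v).2.2.1 (fun _ => c) h contDiffAt_const hh
  rw [h1, lev_const, dr_const]
  simp

/-! ### `chi` on the closed ball -/

lemma tend_smul (z : V n) (G : V n → ℝ) (hG : ContinuousAt G z) :
    Tendsto (fun s : ℝ => G (s • z)) (𝓝[<] 1) (𝓝 (G z)) := by
  have h1 : Tendsto (fun s : ℝ => s • z) (𝓝 1) (𝓝 z) := by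
    have : ContinuousAt (fun s : ℝ => s • z) 1 := by fun_prop
    simpa [ContinuousAt] using this
  exact (hG.tendsto.comp h1).mono_left nhdsWithin_le_nhds

lemma nsq_smul (s : ℝ) (z : V n) : nsq (s • z) = s ^ 2 * nsq z := by
  unfold nsq
  rw [Finset.mul_sum]
  refine Finset.sum_congr rfl fun i _ => ?_
  simp [mul_pow]

lemma ev_small (z : V n) (hz : nsq z ≤ 1 / 4) : ∀ᶠ s : ℝ in 𝓝[<] 1, nsq (s • z) < 1 / 4 := by
  have h1 : ∀ᶠ s : ℝ in 𝓝[<] 1, (0 : ℝ) < s :=
    (eventually_gt_nhds zero_lt_one).filter_mono nhdsWithin_le_nhds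
  filter_upwards [h1, self_mem_nhdsWithin] with s h2 h3
  rw [nsq_smul]
  have h4 : s < 1 := h3
  have h5 : s ^ 2 < 1 := by nlinarith
  have h6 := nsq_nonneg z
  nlinarith

lemma lev_chi (hCUT : T_CUT) (z v : V n) (hz : nsq z ≤ 1 / 4) : lev chi z v = 0 := by
  have hc : ContDiff ℝ 2 (chi (n := n)) := (hCUT n).1.of_le le2
  have hcont : Continuous (fun x => lev (chi (n := n)) x v) := by
    have h2 : ContDiff ℝ 1 (fderiv ℝ (chi (n := n))) := hc.fderiv_right (by norm_num)
    have h1 : ∀ w : V n, ContDiff ℝ 1 (fun x => fderiv ℝ (chi (n := n)) x w) := fun w =>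
      h2.clm_apply contDiff_const
    have h3 : ∀ w u : V n, Continuous (fun x => fderiv ℝ (fun y => fderiv ℝ (chi (n := n)) y w) x u)
      := fun w u => ((h1 w).continuous_fderiv (by norm_num)).clm_apply continuous_const
    unfold lev
    exact ((h3 v v).add (h3 (Complex.I • v) (Complex.I • v))).const_smul (4 : ℝ)⁻¹
  have h1 := tend_smul z _ hcont.continuousAt
  have h2 : Tendsto (fun s : ℝ => lev (chi (n := n)) (s • z) v) (𝓝[<] 1) (𝓝 0) := by
    refine tendsto_const_nhds.congr' ?_
    filter_upwards [ev_small z hz] with s hs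
    rw [lev_congr (chi_one_near hCUT _ hs), lev_const]
  exact tendsto_nhds_unique h1 h2

lemma dr_chi (hCUT : T_CUT) (z v : V n) (hz : nsq z ≤ 1 / 4) : dr chi z v = 0 := by
  have h1 : fderiv ℝ (chi (n := n)) z = 0 := by
    have : IsLocalMax (chi (n := n)) z := by
      refine Filter.Eventually.of_forall fun x => ?_
      rw [((hCUT n).2.2.1 z).2.2.1 hz]
      exact ((hCUT n).2.2.1 x).2.1
    exact this.fderiv_eq_zero
  unfold dr
  rw [h1]
  simp

variable {X : Type} [TopologicalSpace X] {ι : Type} [Fintype ι]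

lemma LL_add (A : Atl n X ι) (w : ι → V n → ℝ) (f : V n → X) {g h : V n → ℝ} {z : V n}
    (hg : ContDiffAt ℝ 2 g z) (hh : ContDiffAt ℝ 2 h z) :
    LL A w f (fun x => g x + h x) z = LL A w f g z + LL A w f h z := by
  unfold LL
  rw [← Finset.sum_add_distrib]
  refine Finset.sum_congr rfl fun a _ => ?_
  rw [← mul_add, ← Finset.sum_add_distrib]
  congr 1
  exact Finset.sum_congr rfl fun k _ => lev_add hg hh _

lemma LL_cmul (hPRD : T_PRD) (A : Atl n X ι) (w : ι → V n → ℝ) (f : V n → X) (c : ℝ)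
    {h : V n → ℝ} {z : V n} (hh : ContDiffAt ℝ 2 h z) :
    LL A w f (fun x => c * h x) z = c * LL A w f h z := by
  unfold LL
  rw [Finset.mul_sum]
  refine Finset.sum_congr rfl fun a _ => ?_
  simp_rw [lev_cmul hPRD c hh]
  rw [← Finset.mul_sum]
  ring

lemma LL_chi (hCUT : T_CUT) (A : Atl n X ι) (w : ι → V n → ℝ) (f : V n → X) (z : V n)
    (hz : nsq z ≤ 1 / 4) : LL A w f chi z = 0 := by
  unfold LL
  simp [lev_chi hCUT z _ hz]

lemma LL_chi_mul (hPRD : T_PRD) (hCUT : T_CUT) (A : Atl n X ι) (w : ι → V n → ℝ) (f : V n → X)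
    (z : V n) (hz : nsq z ≤ 1 / 4) (g : V n → ℝ) (hg : ContDiffAt ℝ 2 g z) :
    LL A w f (fun x => chi x * g x) z = LL A w f g z := by
  unfold LL
  refine Finset.sum_congr rfl fun a _ => ?_
  congr 1
  refine Finset.sum_congr rfl fun k _ => ?_
  have hc : ContDiffAt ℝ 2 (chi (n := n)) z := ((hCUT n).1.of_le le2).contDiffAt
  rw [(hPRD n z _).2.2.1 chi g hc hg, lev_chi hCUT z _ hz, dr_chi hCUT z _ hz,
    ((hCUT n).2.2.1 z).2.2.1 hz]
  simp

lemma log_quarter (z : V n) (hz : 1 / 4 < nsq z) : -1 < lu z := by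
  unfold lu
  have h1 : Real.exp (-2) ≤ 1 / 4 := by
    have h2 : (4 : ℝ) ≤ Real.exp 2 := by
      have := Real.add_one_le_exp (1 : ℝ)
      have h3 : Real.exp 2 = Real.exp 1 * Real.exp 1 := by rw [← Real.exp_add]; norm_num
      nlinarith
    rw [Real.exp_neg, ← one_div]
    exact one_div_le_one_div_of_le (by norm_num) h2
  have h2 : -2 < Real.log (nsq z) := by
    rw [Real.lt_log_iff_exp_lt (by linarith)]
    linarith
  linarith

theorem flx (hPRD : T_PRD) (hNSQ : T_NSQ) (hCUT : T_CUT) (hPWB : T_PWB) (hOAO : T_OAO)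
    (hSTA : T_STA) : T_FLX := by
  intro n X _ _ _ ι _ A w f I hG hS
  have hDpm : MeasurableSet (Dp n \ I) := hS.opn.measurableSet
  have hQm : MeasurableSet {z : V n | nsq z ≤ 1 / 4} :=
    measurableSet_le nsqc.measurable measurable_const
  have hlucont : ∀ z : V n, 0 < nsq z → ContinuousAt (lu (n := n)) z := fun z hz =>
    (lu_cat hNSQ z hz).continuousAt
  have hchi2 : ∀ z : V n, ContDiffAt ℝ 2 (chi (n := n)) z := fun z =>
    ((hCUT n).1.of_le le2).contDiffAt
  set Bq : Set (V n) := (Dp n \ I) \ {z : V n | nsq z ≤ 1 / 4} with hBq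
  have hBm : MeasurableSet Bq := hDpm.diff hQm
  -- general splitting
  have hsplit : ∀ φ : V n → ℝ, IntegrableOn φ (Dp n \ I) →
      ∫ z in Dp n \ I, φ z = (∫ z in (Dp n \ I) ∩ {z : V n | nsq z ≤ 1 / 4}, φ z)
        + ∫ z in Bq, φ z := fun φ hφ => (integral_inter_add_sdiff hQm hφ).symm
  -- rho
  have hrhoB : ∀ t : ℝ, 1 ≤ t → ∀ z ∈ Bq,
      LL A w f (fun x => chi x * rho t x) z = LL A w f chi z := by
    intro t ht z hz
    obtain ⟨hrho, hrho2, hcs, hts⟩ := (hCUT n).2.2.2.1 t ht
    have hz2 : 1 / 4 < nsq z := not_le.mp hz.2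
    refine LL_congr A w f ?_
    filter_upwards [continuousAt_const.eventually_lt nsqc.continuousAt hz2] with x hx
    have h1 := log_quarter x hx
    rw [(hrho2 x).2.2.1 (by linarith) (by linarith), mul_one]
  -- flux as an integral over `Bq`
  have hchiB : IntegrableOn (LL A w f chi) Bq := by
    obtain ⟨hrho, hrho2, hcs, hts⟩ := (hCUT n).2.2.2.1 1 le_rfl
    have hφ : ContDiff ℝ 2 (fun z : V n => chi z * rho 1 z) :=
      ((hCUT n).1.mul hrho).of_le le2
    obtain ⟨i1, -⟩ := hSTA n X ι A w f I hG hS _ hφ hcs hts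
    exact (integrableOn_congr_fun (hrhoB 1 le_rfl) hBm).mp (i1.mono_set Set.sdiff_subset)
  have hchiA : IntegrableOn (LL A w f chi) ((Dp n \ I) ∩ {z : V n | nsq z ≤ 1 / 4}) := by
    refine (integrableOn_congr_fun (f := fun _ => (0 : ℝ)) ?_ (hDpm.inter hQm)).mp integrableOn_zero
    intro z hz
    exact (LL_chi hCUT A w f z hz.2).symm
  have hchiD : IntegrableOn (LL A w f chi) (Dp n \ I) := by
    have := hchiA.union hchiB
    rwa [hBq, Set.inter_union_sdiff] at this
  have hfl : flux A w f I = - ∫ z in Bq, LL A w f chi z := by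
    unfold flux
    rw [hsplit _ hchiD]
    have h0 : ∫ z in (Dp n \ I) ∩ {z : V n | nsq z ≤ 1 / 4}, LL A w f chi z = 0 := by
      rw [setIntegral_congr_fun (g := fun _ => (0 : ℝ)) (hDpm.inter hQm)
        (fun z hz => LL_chi hCUT A w f z hz.2)]
      simp
    rw [h0, zero_add]
  refine ⟨?_, ?_⟩
  swap
  · intro t ht
    obtain ⟨hrho, hrho2, hcs, hts⟩ := (hCUT n).2.2.2.1 t ht
    have hφ : ContDiff ℝ 2 (fun z : V n => chi z * rho t z) :=
      ((hCUT n).1.mul hrho).of_le le2
    obtain ⟨i1, e1⟩ := hSTA n X ι A w f I hG hS _ hφ hcs hts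
    rw [hsplit _ i1, setIntegral_congr_fun hBm (hrhoB t ht)] at e1
    have h2 : ∫ z in (Dp n \ I) ∩ {z : V n | nsq z ≤ 1 / 4}, LL A w f (fun x => chi x * rho t x) z
        = ∫ z in (Dp n \ I) ∩ {z : V n | nsq z ≤ 1 / 4}, LL A w f (rho t) z := by
      refine setIntegral_congr_fun (hDpm.inter hQm) fun z hz => ?_
      exact LL_chi_mul hPRD hCUT A w f z hz.2 (rho t) (hrho.of_le le2).contDiffAt
    rw [h2] at e1
    rw [hfl]
    linarith
  · -- nonnegativity
    have hφj : ∀ j : ℕ, ContDiffOn ℝ 2 (fun z : V n => chi z * lu z ^ j) (Dp n) := by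
      intro j z hz
      exact ((hchi2 z).mul ((lu_cat hNSQ z hz.1).pow j)).contDiffWithinAt
    have hCj : ∀ j : ℕ, ∃ C : ℝ, 0 ≤ C ∧ ∀ z ∈ Kc n \ I,
        |LL A w f (fun z : V n => chi z * lu z ^ j) z|
          ≤ C * ∑ a, (Cb A f a (3 / 2)).indicator (Dm (FF A f a)) z := by
      intro j
      obtain ⟨C0, hC0⟩ := hPWB n X ι A w f I hG hS _ (Kc n) (hφj j) Kc_sub (Kc_compact hNSQ)
      refine ⟨max C0 0, le_max_right _ _, fun z hz => ?_⟩
      refine (hC0 z hz).1.trans ?_
      exact mul_le_mul_of_nonneg_right (le_max_left _ _) (Dm_sum_nonneg A f _ z)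
    obtain ⟨C1, hC1, hb1⟩ := hCj 1
    obtain ⟨C2, hC2, hb2⟩ := hCj 2
    obtain ⟨C3, hC3, hb3⟩ := hCj 3
    obtain ⟨M, hM, hmass⟩ := mass hOAO A f I hS (Kc n) Kc_sub (Kc_compact hNSQ)
    set C := 3 * C1 + 3 * C2 + C3 with hC
    have hCnn : 0 ≤ C := by positivity
    have hmain : ∀ t : ℝ, 1 ≤ t → ∫ z in Bq, LL A w f chi z ≤ C * M / t := by
      intro t ht
      have ht0 : 0 < t := by linarith
      obtain ⟨hF2, hF', hF''⟩ := cub_facts t 1 1 ht0
      set F : ℝ → ℝ := fun s : ℝ => 1 * (max (s / t + 1) 0) ^ 3 with hF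
      have hFz : ∀ s ≤ -t, F s = 0 := by
        intro s hs
        have : s / t + 1 ≤ 0 := by
          have : s / t ≤ -1 := by rw [div_le_iff₀ ht0]; linarith
          linarith
        simp only [hF, max_eq_right this]
        norm_num
      obtain ⟨hg2, hgc, hgt⟩ := (hCUT n).2.2.2.2 F hF2 ⟨_, hFz⟩
      set g : V n → ℝ := fun z => if nsq z = 0 then 0 else F (lu z) with hg
      have hcg : ContDiff ℝ 2 (fun z : V n => chi z * g z) := ((hCUT n).1.of_le le2).mul hg2
      obtain ⟨i1, e1⟩ := hSTA n X ι A w f I hG hS _ hcg hgc hgt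
      rw [hsplit _ i1] at e1
      have hgnn : ∀ z ∈ (Dp n \ I) ∩ {z : V n | nsq z ≤ 1 / 4},
          0 ≤ LL A w f (fun z : V n => chi z * g z) z := by
        intro z hz
        rw [LL_chi_mul hPRD hCUT A w f z hz.2 g hg2.contDiffAt]
        have h1 : g =ᶠ[𝓝 z] fun x => F (lu x) := by
          filter_upwards [continuousAt_const.eventually_lt nsqc.continuousAt hz.1.1.1] with x hx
          simp only [hg]
          rw [if_neg hx.ne']
        rw [LL_congr A w f h1, LL_comp hPRD A w f F lu z hF2.contDiffAt (lu_cat hNSQ z hz.1.1.1)]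
        have h2 : 0 ≤ LL A w f lu z :=
          LL_nonneg A w hG f lu z fun v => ((hNSQ n).2.2.2.2.1 z v hz.1.1.1).1
        have h3 : 0 ≤ GE A w f lu z := GE_nonneg A w hG f lu z
        have h4 : 0 ≤ deriv F (lu z) := by rw [hF']; positivity
        have h5 : 0 ≤ deriv (deriv F) (lu z) := by
          rw [hF'']
          have : 0 ≤ max (lu z / t + 1) 0 := le_max_right _ _
          positivity
        exact add_nonneg (mul_nonneg h4 h2) (mul_nonneg h5 h3)
      have hA : 0 ≤ ∫ z in (Dp n \ I) ∩ {z : V n | nsq z ≤ 1 / 4},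
          LL A w f (fun z : V n => chi z * g z) z := setIntegral_nonneg (hDpm.inter hQm) hgnn
      -- the difference on `Bq`
      have hexp : ∀ z ∈ Bq, LL A w f (fun z : V n => chi z * g z) z
          = LL A w f chi z + (3 / t * LL A w f (fun z : V n => chi z * lu z ^ 1) z
            + (3 / t ^ 2 * LL A w f (fun z : V n => chi z * lu z ^ 2) z
              + 1 / t ^ 3 * LL A w f (fun z : V n => chi z * lu z ^ 3) z)) := by
        intro z hz
        have hz2 : 1 / 4 < nsq z := not_le.mp hz.2
        have hzD : 0 < nsq z := by linarith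
        have h1 : (fun z : V n => chi z * g z) =ᶠ[𝓝 z] fun x => chi x
            + (3 / t * (chi x * lu x ^ 1) + (3 / t ^ 2 * (chi x * lu x ^ 2)
              + 1 / t ^ 3 * (chi x * lu x ^ 3))) := by
          filter_upwards [continuousAt_const.eventually_lt nsqc.continuousAt hz2] with x hx
          have h2 := log_quarter x hx
          have h3 : 0 ≤ lu x / t + 1 := by
            have : -1 ≤ lu x / t := by rw [le_div_iff₀ ht0]; linarith
            linarith
          simp only [hg, hF]
          rw [if_neg (by linarith), max_eq_left h3]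
          field_simp
          ring
        have hd : ∀ j : ℕ, ContDiffAt ℝ 2 (fun z : V n => chi z * lu z ^ j) z := fun j =>
          (hchi2 z).mul ((lu_cat hNSQ z hzD).pow j)
        rw [LL_congr A w f h1, LL_add A w f (hchi2 z)
          ((contDiffAt_const.mul (hd 1)).add ((contDiffAt_const.mul (hd 2)).add
            (contDiffAt_const.mul (hd 3)))),
          LL_add A w f (contDiffAt_const.mul (hd 1)) ((contDiffAt_const.mul (hd 2)).add
            (contDiffAt_const.mul (hd 3))),
          LL_add A w f (contDiffAt_const.mul (hd 2)) (contDiffAt_const.mul (hd 3)),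
          LL_cmul hPRD A w f _ (hd 1), LL_cmul hPRD A w f _ (hd 2), LL_cmul hPRD A w f _ (hd 3)]
      have hjz : ∀ j : ℕ, ∀ z : V n, 1 / 2 < nsq z →
          LL A w f (fun z : V n => chi z * lu z ^ j) z = 0 := by
        intro j z hz
        have : (fun z : V n => chi z * lu z ^ j) =ᶠ[𝓝 z] fun _ => 0 := by
          filter_upwards [chi_zero_near hCUT z hz] with x hx
          rw [hx, zero_mul]
        rw [LL_congr A w f this, LL_const]
      set u : V n → ℝ := Bq.indicator (fun z => LL A w f (fun z : V n => chi z * g z) z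
        - LL A w f chi z) with hu
      have hmass2 := hmass u (C / t) (by positivity) ?_ ?_
      · have iB : IntegrableOn (LL A w f (fun z : V n => chi z * g z)) Bq :=
          i1.mono_set Set.sdiff_subset
        have hdiff : ∫ z in Bq, (LL A w f (fun z : V n => chi z * g z) z - LL A w f chi z)
            = (∫ z in Bq, LL A w f (fun z : V n => chi z * g z) z) - ∫ z in Bq, LL A w f chi z :=
          integral_sub iB hchiB
        have h1 : ‖∫ z in Bq, (LL A w f (fun z : V n => chi z * g z) z - LL A w f chi z)‖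
            ≤ C / t * M := by
          refine (norm_integral_le_lintegral_norm _).trans ?_
          have h2 : ∫⁻ z in Bq, ENNReal.ofReal ‖LL A w f (fun z : V n => chi z * g z) z
              - LL A w f chi z‖ ≤ ENNReal.ofReal (C / t * M) := by
            refine le_trans ?_ hmass2
            calc ∫⁻ z in Bq, ENNReal.ofReal ‖LL A w f (fun z : V n => chi z * g z) z
                  - LL A w f chi z‖ = ∫⁻ z in Bq, ENNReal.ofReal |u z| := by
                  refine setLIntegral_congr_fun hBm fun z hz => ?_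
                  simp only [hu, Set.indicator_of_mem hz, Real.norm_eq_abs]
              _ ≤ _ := lintegral_mono_set Set.sdiff_subset
          have := ENNReal.toReal_mono ENNReal.ofReal_ne_top h2
          rwa [ENNReal.toReal_ofReal (by positivity)] at this
        have h2 := (abs_le.mp h1).1
        rw [hdiff] at h2
        have h3 : C / t * M = C * M / t := by ring
        linarith
      · intro z hz
        have hS0 := Dm_sum_nonneg A f (3 / 2) z
        by_cases hzB : z ∈ Bq
        · simp only [hu, Set.indicator_of_mem hzB]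
          rw [hexp z hzB]
          have b1 := hb1 z hz
          have b2 := hb2 z hz
          have b3 := hb3 z hz
          set S := ∑ a, (Cb A f a (3 / 2)).indicator (Dm (FF A f a)) z with hSdef
          set x1 := LL A w f (fun z : V n => chi z * lu z ^ 1) z
          set x2 := LL A w f (fun z : V n => chi z * lu z ^ 2) z
          set x3 := LL A w f (fun z : V n => chi z * lu z ^ 3) z
          have e0 : LL A w f chi z + (3 / t * x1 + (3 / t ^ 2 * x2 + 1 / t ^ 3 * x3))
              - LL A w f chi z = 3 / t * x1 + 3 / t ^ 2 * x2 + 1 / t ^ 3 * x3 := by ring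
          rw [e0]
          have q2 : 3 / t ^ 2 ≤ 3 / t := by
            apply div_le_div_of_nonneg_left (by norm_num) ht0
            nlinarith
          have q3 : 1 / t ^ 3 ≤ 1 / t := by
            apply div_le_div_of_nonneg_left (by norm_num) ht0
            nlinarith [pow_le_pow_left₀ zero_le_one ht 2]
          calc |3 / t * x1 + 3 / t ^ 2 * x2 + 1 / t ^ 3 * x3|
              ≤ |3 / t * x1| + |3 / t ^ 2 * x2| + |1 / t ^ 3 * x3| := abs_add_three _ _ _
            _ = 3 / t * |x1| + 3 / t ^ 2 * |x2| + 1 / t ^ 3 * |x3| := by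
                rw [abs_mul, abs_mul, abs_mul, abs_of_pos (by positivity : 0 < 3 / t),
                  abs_of_pos (by positivity : 0 < 3 / t ^ 2),
                  abs_of_pos (by positivity : 0 < 1 / t ^ 3)]
            _ ≤ 3 / t * (C1 * S) + 3 / t * (C2 * S) + 1 / t * (C3 * S) := by gcongr
            _ = C / t * S := by rw [hC]; ring
        · simp only [hu, Set.indicator_of_notMem hzB, abs_zero]
          positivity
      · intro z hz hzK
        by_cases hzB : z ∈ Bq
        · simp only [hu, Set.indicator_of_mem hzB]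
          have hz2 : 1 / 4 < nsq z := not_le.mp hzB.2
          have hz3 : 1 / 2 < nsq z := by
            by_contra h3
            exact hzK ⟨hz2.le, not_lt.mp h3⟩
          rw [hexp z hzB, hjz 1 z hz3, hjz 2 z hz3, hjz 3 z hz3]
          ring
        · simp only [hu, Set.indicator_of_notMem hzB]
    have hlim : ∫ z in Bq, LL A w f chi z ≤ 0 := by
      have h1 : Tendsto (fun t : ℝ => C * M / t) atTop (𝓝 0) := tendsto_const_nhds.div_atTop tendsto_id
      refine ge_of_tendsto h1 ?_
      filter_upwards [eventually_ge_atTop 1] with t ht using hmain t ht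
    rw [hfl]
    linarith

end Pool.Agent.H30.VG.FLX
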