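import Pool.Agent.H95.VG.Targets1

/-! Module FOZ: conjugate version of FO. -/

open MeasureTheory Set Filter Topology
open scoped ENNReal NNReal ContDiff ComplexConjugate

namespace Pool.Agent.H30.VG.FOZ

open Pool.Agent.H95.VG

lemma int_conj {α : Type*} [MeasurableSpace α] {μ : Measure α} {g : α → ℂ} (hg : Integrable g μ) :
    Integrable (fun x => conj (g x)) μ :=
  (Complex.conjCLE : ℂ →L[ℝ] ℂ).integrable_comp hg

theorem foz (hLIN : T_LIN) (hFO : T_FO) : T_FOZ := by
  intro n X _ _ ι A f I hS a k φ q σ R hR hφ hφc hφt hσ hq hqs hqb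
  have hcc : ContDiff ℝ 1 (fun z : ℂ => conj z) := (Complex.conjCLE : ℂ →L[ℝ] ℂ).contDiff
  have h1 : ContDiff ℝ 1 (fun z => conj (φ z)) := hcc.comp hφ
  have h2 : HasCompactSupport (fun z => conj (φ z)) := by
    refine hφc.mono ?_
    intro z hz
    simpa using hz
  have h3 : tsupport (fun z => conj (φ z)) ⊆ Dp n := by
    refine (closure_mono ?_).trans hφt
    intro z hz
    simpa using hz
  have h4 : ∀ s, ContDiff ℝ 1 (fun y => conj (q y s)) := fun s => hcc.comp (hq s)
  have h5 : ∀ y s, conj (q y s) ≠ 0 → y ∈ Metric.closedBall (0 : V n) R := by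
    intro y s hy
    exact hqs y s (by simpa using hy)
  have hqd : ∀ s y, DifferentiableAt ℝ (fun y => q y s) y := fun s y =>
    ((hq s).differentiable (by norm_num)) y
  have hφd : ∀ z, DifferentiableAt ℝ φ z := fun z => (hφ.differentiable (by norm_num)) z
  have h6 : ∃ C : ℝ, ∀ y s, ‖conj (q y s)‖ ≤ C ∧ ‖fderiv ℝ (fun y => conj (q y s)) y‖ ≤ C := by
    obtain ⟨C, hC⟩ := hqb
    refine ⟨C, fun y s => ⟨by rw [RCLike.norm_conj]; exact (hC y s).1, ?_⟩⟩
    have e : fderiv ℝ (fun y => conj (q y s)) y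
        = (Complex.conjCLE : ℂ →L[ℝ] ℂ).comp (fderiv ℝ (fun y => q y s) y) := by
      have := (Complex.conjCLE : ℂ →L[ℝ] ℂ).hasFDerivAt.comp y (hqd s y).hasFDerivAt
      exact this.fderiv
    rw [e]
    refine (ContinuousLinearMap.opNorm_comp_le _ _).trans ?_
    have hn : ‖(Complex.conjCLE : ℂ →L[ℝ] ℂ)‖ = 1 := Complex.conjCLE_norm
    rw [hn, one_mul]
    exact (hC y s).2
  obtain ⟨i1, i2, i3⟩ := hFO n X ι A f I hS a k (fun z => conj (φ z)) (fun _ => 1)
    (fun y s => conj (q y s)) σ R hR h1 h2 h3 (differentiableOn_const _) hσ h4 h5 h6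
  have e1 : ∀ z, dzb (fun y => conj (q y (σ z))) (FF A f a z) (ek k)
      = conj (dz (fun y => q y (σ z)) (FF A f a z) (ek k)) := fun z =>
    (((hLIN n (FF A f a z)).2.1) _ _ (hqd (σ z) _)).1
  have e2 : ∀ z, dzb (fun x => conj (φ x)) z (cf (FF A f a) k z)
      = conj (dz φ z (cf (FF A f a) k z)) := fun z =>
    (((hLIN n z).2.1) _ _ (hφd z)).1
  have f1 : (fun z => conj (conj (φ z) * 1 * ((‖(jac (FF A f a) z).det‖ ^ 2 : ℝ) : ℂ) *
      dzb (fun y => conj (q y (σ z))) (FF A f a z) (ek k)))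
      = fun z => φ z * ((‖(jac (FF A f a) z).det‖ ^ 2 : ℝ) : ℂ) *
        dz (fun y => q y (σ z)) (FF A f a z) (ek k) := by
    funext z
    rw [e1 z]
    simp only [map_mul, Complex.conj_conj, Complex.conj_ofReal, mul_one]
  have f2 : (fun z => conj (conj (q (FF A f a z) (σ z)) * 1 * (jac (FF A f a) z).det *
      dzb (fun x => conj (φ x)) z (cf (FF A f a) k z)))
      = fun z => q (FF A f a z) (σ z) * conj (jac (FF A f a) z).det *
        dz φ z (cf (FF A f a) k z) := by
    funext z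
    rw [e2 z]
    simp only [map_mul, Complex.conj_conj, mul_one]
  refine ⟨?_, ?_, ?_⟩
  · rw [← f1]; exact int_conj i1
  · rw [← f2]; exact int_conj i2
  · rw [← f1, ← f2, integral_conj, integral_conj, i3, map_neg]

end Pool.Agent.H30.VG.FOZ
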