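import Pool.Agent.H95.VG.Targets1
import Pool.Agent.H30.VG.CUT

/-! Helper lemmas for ABM and FLX. -/

open MeasureTheory Set Filter Topology
open scoped ENNReal NNReal ContDiff ComplexConjugate

namespace Pool.Agent.H30.VG.Sh

open Pool.Agent.H95.VG Pool.Agent.H30.VG.CUT

variable {n : ℕ} {X : Type} [TopologicalSpace X] {ι : Type}

/-! ### germs -/

lemma lev_congr {g g' : V n → ℝ} {z : V n} (h : g =ᶠ[𝓝 z] g') (v : V n) :
    lev g z v = lev g' z v := by
  unfold lev
  have h1 : ∀ w : V n, (fun x => fderiv ℝ g x w) =ᶠ[𝓝 z] fun x => fderiv ℝ g' x w := by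
    intro w
    have h2 : fderiv ℝ g =ᶠ[𝓝 z] fderiv ℝ g' := h.fderiv
    filter_upwards [h2] with x hx
    rw [hx]
  rw [(h1 v).fderiv_eq, (h1 (Complex.I • v)).fderiv_eq]

lemma dr_congr {g g' : V n → ℝ} {z : V n} (h : g =ᶠ[𝓝 z] g') (v : V n) :
    dr g z v = dr g' z v := by
  unfold dr
  rw [h.fderiv_eq]

lemma lev_const (c : ℝ) (z v : V n) : lev (fun _ => c) z v = 0 := by
  unfold lev
  have h1 : ∀ w : V n, (fun x : V n => fderiv ℝ (fun _ : V n => c) x w) = fun _ => 0 := by
    intro w; funext x; simp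
  rw [h1 v, h1 (Complex.I • v)]
  simp

lemma dr_const (c : ℝ) (z v : V n) : dr (fun _ => c) z v = 0 := by
  unfold dr
  simp

variable [Fintype ι]

lemma LL_congr (A : Atl n X ι) (w : ι → V n → ℝ) (f : V n → X) {g g' : V n → ℝ} {z : V n}
    (h : g =ᶠ[𝓝 z] g') : LL A w f g z = LL A w f g' z := by
  unfold LL
  refine Finset.sum_congr rfl fun a _ => ?_
  congr 1
  exact Finset.sum_congr rfl fun k _ => lev_congr h _

lemma LL_const (A : Atl n X ι) (w : ι → V n → ℝ) (f : V n → X) (c : ℝ) (z : V n) :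
    LL A w f (fun _ => c) z = 0 := by
  unfold LL
  simp [lev_const]

lemma LLs_congr (A : Atl n X ι) (w : ι → V n → ℝ) (f : V n → X) {g g' : V n → ℝ} {z : V n}
    (h : g =ᶠ[𝓝 z] g') : LLs A w f g z = LLs A w f g' z := by
  unfold LLs
  rw [LL_congr A w f h]
  congr 2
  refine Finset.sum_congr rfl fun a _ => ?_
  unfold Set.indicator
  split_ifs
  · exact Finset.sum_congr rfl fun k _ => by rw [dr_congr h]
  · rfl

lemma LLs_const (A : Atl n X ι) (w : ι → V n → ℝ) (f : V n → X) (c : ℝ) (z : V n) :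
    LLs A w f (fun _ => c) z = 0 := by
  unfold LLs
  rw [LL_const]
  simp [dr_const]

/-- chain rule for `LL` -/
lemma LL_comp (hPRD : T_PRD) (A : Atl n X ι) (w : ι → V n → ℝ) (f : V n → X) (θ : ℝ → ℝ)
    (g : V n → ℝ) (z : V n) (hθ : ContDiffAt ℝ 2 θ (g z)) (hg : ContDiffAt ℝ 2 g z) :
    LL A w f (fun x => θ (g x)) z
      = deriv θ (g z) * LL A w f g z + deriv (deriv θ) (g z) * GE A w f g z := by
  unfold LL GE
  rw [Finset.mul_sum, Finset.mul_sum, ← Finset.sum_add_distrib]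
  refine Finset.sum_congr rfl fun a _ => ?_
  have h1 : ∀ k, lev (fun x => θ (g x)) z (cf (FF A f a) k z)
      = deriv θ (g z) * lev g z (cf (FF A f a) k z)
        + deriv (deriv θ) (g z) * ge g z (cf (FF A f a) k z) :=
    fun k => (hPRD n z _).2.2.2.2 θ g hθ hg
  simp_rw [h1]
  rw [Finset.sum_add_distrib, ← Finset.mul_sum, ← Finset.mul_sum]
  ring

/-- nonnegativity -/
lemma Wt_nonneg (A : Atl n X ι) (w : ι → V n → ℝ) (hG : Gau A w) (a : ι) (x : X) :
    0 ≤ Wt A w a x := by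
  unfold Wt
  exact Set.indicator_nonneg (fun y _ => hG.nonneg a _) x

lemma GE_nonneg (A : Atl n X ι) (w : ι → V n → ℝ) (hG : Gau A w) (f : V n → X) (g : V n → ℝ)
    (z : V n) : 0 ≤ GE A w f g z := by
  unfold GE
  refine Finset.sum_nonneg fun a _ => mul_nonneg (Wt_nonneg A w hG a _) ?_
  exact Finset.sum_nonneg fun k _ => by unfold ge; positivity

lemma LL_nonneg (A : Atl n X ι) (w : ι → V n → ℝ) (hG : Gau A w) (f : V n → X) (g : V n → ℝ)
    (z : V n) (hg : ∀ v, 0 ≤ lev g z v) : 0 ≤ LL A w f g z := by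
  unfold LL
  exact Finset.sum_nonneg fun a _ => mul_nonneg (Wt_nonneg A w hG a _)
    (Finset.sum_nonneg fun k _ => hg _)

/-! ### the cube of the positive part -/

lemma hasDerivAt_max (k : ℕ) (hk : 1 ≤ k) (x : ℝ) :
    HasDerivAt (fun x : ℝ => (max x 0) ^ (k + 1)) ((k + 1) * (max x 0) ^ k) x := by
  rcases lt_trichotomy x 0 with h | h | h
  · have h1 : (fun x : ℝ => (max x 0) ^ (k + 1)) =ᶠ[𝓝 x] fun _ => 0 := by
      filter_upwards [eventually_lt_nhds h] with y hy
      rw [max_eq_right hy.le]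
      simp
    have h2 : ((k : ℝ) + 1) * (max x 0) ^ k = 0 := by
      rw [max_eq_right h.le, zero_pow (by omega)]; simp
    rw [h2]
    exact (hasDerivAt_const x (0 : ℝ)).congr_of_eventuallyEq h1
  · subst h
    have h2 : ((k : ℝ) + 1) * (max (0 : ℝ) 0) ^ k = 0 := by
      rw [max_self, zero_pow (by omega)]; simp
    rw [h2, hasDerivAt_iff_isLittleO_nhds_zero]
    simp only [zero_add, max_self, smul_zero, sub_zero]
    have h3 : (fun h : ℝ => (max h 0) ^ (k + 1) - 0 ^ (k + 1)) =O[𝓝 0] fun h : ℝ => h ^ (k + 1) := by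
      refine Asymptotics.isBigO_of_le _ fun y => ?_
      rw [zero_pow (by omega), sub_zero, norm_pow, norm_pow]
      refine pow_le_pow_left₀ (norm_nonneg _) ?_ _
      rw [Real.norm_eq_abs, Real.norm_eq_abs, abs_of_nonneg (le_max_right _ _)]
      exact max_le (le_abs_self y) (abs_nonneg y)
    have h4 : (fun h : ℝ => h ^ (k + 1)) =o[𝓝 0] fun h : ℝ => h := by
      have := Asymptotics.isLittleO_pow_pow (𝕜 := ℝ) (show 1 < k + 1 by omega)
      simpa using this
    exact h3.trans_isLittleO h4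
  · have h1 : (fun x : ℝ => (max x 0) ^ (k + 1)) =ᶠ[𝓝 x] fun x => x ^ (k + 1) := by
      filter_upwards [eventually_gt_nhds h] with y hy
      rw [max_eq_left hy.le]
    have h2 : ((k : ℝ) + 1) * (max x 0) ^ k = ((k + 1 : ℕ) : ℝ) * x ^ (k + 1 - 1) := by
      rw [max_eq_left h.le]; simp
    rw [h2]
    exact (hasDerivAt_pow (k + 1) x).congr_of_eventuallyEq h1

lemma deriv_max3 : deriv (fun x : ℝ => (max x 0) ^ 3) = fun x => 3 * (max x 0) ^ 2 := by
  funext x
  have := (hasDerivAt_max 2 (by norm_num) x).deriv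
  norm_num at this
  exact this

lemma deriv_max2 : deriv (fun x : ℝ => (max x 0) ^ 2) = fun x => 2 * (max x 0) := by
  funext x
  have := (hasDerivAt_max 1 le_rfl x).deriv
  norm_num at this
  exact this

lemma contDiff_max2 : ContDiff ℝ 1 (fun x : ℝ => (max x 0) ^ 2) := by
  rw [show (1 : WithTop ℕ∞) = 0 + 1 from rfl, contDiff_succ_iff_deriv]
  refine ⟨fun x => ?_, by simp, ?_⟩
  · have := (hasDerivAt_max 1 le_rfl x).differentiableAt
    exact this
  · rw [deriv_max2, contDiff_zero]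
    fun_prop

lemma contDiff_max3 : ContDiff ℝ 2 (fun x : ℝ => (max x 0) ^ 3) := by
  rw [show (2 : WithTop ℕ∞) = 1 + 1 from rfl, contDiff_succ_iff_deriv]
  refine ⟨fun x => ?_, by simp, ?_⟩
  · have := (hasDerivAt_max 2 (by norm_num) x).differentiableAt
    exact this
  · rw [deriv_max3]
    exact contDiff_const.mul contDiff_max2

/-- `F s = c * (max (s / t + d) 0) ^ 3` -/
lemma cub_facts (t c d : ℝ) (ht : 0 < t) :
    ContDiff ℝ 2 (fun s : ℝ => c * (max (s / t + d) 0) ^ 3) ∧
    (deriv (fun s : ℝ => c * (max (s / t + d) 0) ^ 3)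
      = fun s => c * (3 * (max (s / t + d) 0) ^ 2 / t)) ∧
    deriv (deriv (fun s : ℝ => c * (max (s / t + d) 0) ^ 3))
      = fun s => c * (6 * (max (s / t + d) 0) / t ^ 2) := by
  have haff : ∀ s, HasDerivAt (fun s : ℝ => s / t + d) (1 / t) s := fun s =>
    ((hasDerivAt_id s).div_const t).add_const d
  have hd : deriv (fun s : ℝ => c * (max (s / t + d) 0) ^ 3)
      = fun s => c * (3 * (max (s / t + d) 0) ^ 2 / t) := by
    funext s
    have h1 := (hasDerivAt_max 2 (by norm_num) (s / t + d))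
    have h2 := (HasDerivAt.comp s h1 (haff s)).const_mul c
    have h3 := h2.deriv
    simp only [Function.comp_def] at h3
    rw [show (2 + 1 : ℕ) = 3 from rfl] at h3
    rw [h3]
    push_cast
    ring
  refine ⟨?_, hd, ?_⟩
  · have h1 : ContDiff ℝ 2 (fun s : ℝ => s / t + d) := (contDiff_id.div_const t).add contDiff_const
    exact contDiff_const.mul (contDiff_max3.comp h1)
  · rw [hd]
    funext s
    have h1 := (hasDerivAt_max 1 le_rfl (s / t + d))
    have h2 := ((HasDerivAt.comp s h1 (haff s)).const_mul 3).div_const t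
    have h3 := (h2.const_mul c).deriv
    simp only [Function.comp_def] at h3
    rw [show (1 + 1 : ℕ) = 2 from rfl] at h3
    rw [h3]
    push_cast
    rw [pow_one, pow_two]
    field_simp
    ring

/-! ### masses on compact sets -/

lemma meas_Dm (Y : V n → V n) : Measurable (fun z => Dm Y z) := by
  unfold Dm
  refine Finset.measurable_sum _ fun Φ _ => ?_
  refine Measurable.pow_const ?_ 2
  refine Measurable.norm ?_
  simp_rw [Matrix.det_apply]
  refine Finset.measurable_sum _ fun σ _ => ?_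
  refine Measurable.const_smul ?_ _
  refine Finset.measurable_prod _ fun i _ => ?_
  have h1 : Measurable fun z => fderiv ℂ (mix Φ Y) z (ek i) :=
    measurable_fderiv_apply_const ℂ _ _
  exact (measurable_pi_apply (σ i)).comp h1

/-- integrable mass of the shells -/
lemma mass (hOAO : T_OAO) [T2Space X] (A : Atl n X ι) (f : V n → X) (I : Set (V n))
    (hS : Sing A f I) (K : Set (V n)) (hK : K ⊆ Dp n) (hKc : IsCompact K) :
    ∃ M : ℝ, 0 ≤ M ∧ ∀ (u : V n → ℝ) (c : ℝ), 0 ≤ c →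
      (∀ z ∈ K \ I, |u z| ≤ c * ∑ a, (Cb A f a (3 / 2)).indicator (Dm (FF A f a)) z) →
      (∀ z ∈ Dp n \ I, z ∉ K → u z = 0) →
      ∫⁻ z in Dp n \ I, ENNReal.ofReal |u z| ≤ ENNReal.ofReal (c * M) := by
  have hDm : ∀ a z, 0 ≤ Dm (FF A f a) z := fun a z => Finset.sum_nonneg fun _ _ => by positivity
  have hKI : K \ I = K ∩ (Dp n \ I) := by
    ext z; constructor
    · rintro ⟨h1, h2⟩; exact ⟨h1, hK h1, h2⟩
    · rintro ⟨h1, h2⟩; exact ⟨h1, h2.2⟩
  have hDpm : MeasurableSet (Dp n \ I) := hS.opn.measurableSet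
  have hKm : MeasurableSet K := hKc.isClosed.measurableSet
  have hKIm : MeasurableSet (K \ I) := by rw [hKI]; exact hKm.inter hDpm
  -- each a
  have hC2 : ∀ a, ∃ C : Set (V n), IsClosed C ∧ (∀ z ∈ Dp n \ I, (z ∈ Cb A f a 2 ↔ z ∈ C)) := by
    intro a
    obtain ⟨C, hCc, hC⟩ := (hOAO n X ι A f I hS a).2.2.1 2 le_rfl
    refine ⟨C, hCc, fun z hz' => ⟨fun h => ?_, fun h => ?_⟩⟩
    · have : z ∈ (Dp n \ I) ∩ Cb A f a 2 := ⟨hz', h⟩
      rw [hC] at this; exact this.2
    · have : z ∈ (Dp n \ I) ∩ C := ⟨hz', h⟩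
      rw [← hC] at this; exact this.2
  have h0 : ∀ a, ∃ C : Set (V n), IsClosed C ∧ (∀ z ∈ Dp n \ I, (z ∈ Cb A f a 2 ↔ z ∈ C)) ∧
      ∀ z ∈ K \ I, (Cb A f a 2).indicator (fun z => ENNReal.ofReal (Dm (FF A f a) z)) z
        = C.indicator (fun z => ENNReal.ofReal (Dm (FF A f a) z)) z := by
    intro a
    obtain ⟨C, hCc, hC⟩ := hC2 a
    refine ⟨C, hCc, hC, fun z hz => ?_⟩
    have hz' : z ∈ Dp n \ I := by rw [hKI] at hz; exact hz.2
    have hiff := hC z hz'
    by_cases h : z ∈ C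
    · simp [Set.indicator, h, hiff.mpr h]
    · have h' : z ∉ Cb A f a 2 := fun hh => h (hiff.mp hh)
      simp [Set.indicator, h, h']
  have h1 : ∀ a, ∫⁻ z in K \ I, (Cb A f a 2).indicator
      (fun z => ENNReal.ofReal (Dm (FF A f a) z)) z < ⊤ := by
    intro a
    obtain ⟨C, hCc, hC, hC3⟩ := h0 a
    have e1 : ∫⁻ z in K \ I, (Cb A f a 2).indicator (fun z => ENNReal.ofReal (Dm (FF A f a) z)) z
        = ∫⁻ z in K \ I, C.indicator (fun z => ENNReal.ofReal (Dm (FF A f a) z)) z :=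
      setLIntegral_congr_fun hKIm hC3
    rw [e1, setLIntegral_indicator hCc.measurableSet]
    have e2 : C ∩ (K \ I) = (K \ I) ∩ Cb A f a 2 := by
      ext z
      constructor
      · rintro ⟨h2, h3⟩
        have hz' : z ∈ Dp n \ I := by rw [hKI] at h3; exact h3.2
        exact ⟨h3, (hC z hz').mpr h2⟩
      · rintro ⟨h2, h3⟩
        have hz' : z ∈ Dp n \ I := by rw [hKI] at h2; exact h2.2
        exact ⟨(hC z hz').mp h3, h2⟩
    rw [e2]
    exact hS.s1 K hK hKc a
  obtain ⟨M, hM⟩ : ∃ M : ℝ≥0∞, M = ∑ a, ∫⁻ z in K \ I, (Cb A f a 2).indicator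
      (fun z => ENNReal.ofReal (Dm (FF A f a) z)) z := ⟨_, rfl⟩
  have hMfin : M ≠ ⊤ := by
    rw [hM]; exact (ENNReal.sum_lt_top.mpr fun a _ => h1 a).ne
  refine ⟨M.toReal, ENNReal.toReal_nonneg, ?_⟩
  intro u c hc hu hu0
  have key : ∫⁻ z in K \ I, ∑ a, (Cb A f a 2).indicator
      (fun z => ENNReal.ofReal (Dm (FF A f a) z)) z = M := by
    have hmeas : ∀ a, AEMeasurable (fun z => (Cb A f a 2).indicator
        (fun z => ENNReal.ofReal (Dm (FF A f a) z)) z) (volume.restrict (K \ I)) := by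
      intro a
      obtain ⟨C, hCc, hC, hC3⟩ := h0 a
      have hm : Measurable (C.indicator (fun z => ENNReal.ofReal (Dm (FF A f a) z))) :=
        (meas_Dm _).ennreal_ofReal.indicator hCc.measurableSet
      refine hm.aemeasurable.congr ?_
      filter_upwards [ae_restrict_mem hKIm] with z hz
      exact (hC3 z hz).symm
    rw [lintegral_finsetSum' _ fun a _ => hmeas a, hM]
  have hpt : ∀ z ∈ Dp n \ I, ENNReal.ofReal |u z| ≤ K.indicator (fun z => ENNReal.ofReal c *
      ∑ a, (Cb A f a 2).indicator (fun z => ENNReal.ofReal (Dm (FF A f a) z)) z) z := by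
    intro z hz
    by_cases hzK : z ∈ K
    · rw [Set.indicator_of_mem hzK]
      have h2 := hu z ⟨hzK, hz.2⟩
      calc ENNReal.ofReal |u z|
          ≤ ENNReal.ofReal (c * ∑ a, (Cb A f a (3 / 2)).indicator (Dm (FF A f a)) z) :=
            ENNReal.ofReal_le_ofReal h2
        _ = ENNReal.ofReal c * ∑ a, ENNReal.ofReal
              ((Cb A f a (3 / 2)).indicator (Dm (FF A f a)) z) := by
            rw [ENNReal.ofReal_mul hc, ENNReal.ofReal_sum_of_nonneg]
            intro a _
            exact Set.indicator_nonneg (fun y _ => hDm a y) z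
        _ ≤ _ := by
            gcongr with a
            by_cases h3 : z ∈ Cb A f a (3 / 2)
            · have h4 : z ∈ Cb A f a 2 :=
                ⟨h3.1, Metric.closedBall_subset_closedBall (by norm_num) h3.2⟩
              rw [Set.indicator_of_mem h3, Set.indicator_of_mem h4]
            · rw [Set.indicator_of_notMem h3, ENNReal.ofReal_zero]
              exact zero_le
    · rw [hu0 z hz hzK, abs_zero, ENNReal.ofReal_zero]
      exact zero_le
  calc ∫⁻ z in Dp n \ I, ENNReal.ofReal |u z|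
      ≤ ∫⁻ z in Dp n \ I, K.indicator (fun z => ENNReal.ofReal c *
          ∑ a, (Cb A f a 2).indicator (fun z => ENNReal.ofReal (Dm (FF A f a) z)) z) z :=
        setLIntegral_mono' hDpm hpt
    _ = ∫⁻ z in K \ I, ENNReal.ofReal c *
          ∑ a, (Cb A f a 2).indicator (fun z => ENNReal.ofReal (Dm (FF A f a) z)) z := by
        rw [setLIntegral_indicator hKm, ← hKI]
    _ = ENNReal.ofReal c * M := by
        rw [lintegral_const_mul' _ _ ENNReal.ofReal_ne_top, key]
    _ = ENNReal.ofReal (c * M.toReal) := by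
        rw [ENNReal.ofReal_mul hc, ENNReal.ofReal_toReal hMfin]

end Pool.Agent.H30.VG.Sh
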